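import Pool.Agent.Helper66.CW.Defs
import Pool.Agent.Helper66.GL.ExistR
import Pool.Agent.Helper66.JC.Base

/-!
# Block B4 (MP_a499ba_nt): signs with all correlation sums of order at least two small

Borel-Cantelli for countably many families of events, and the passage from the scales `(1 + 1 / (m + 1)) ^ j` to all
integers. `ChebH` is the statement of block B3.
-/

set_option autoImplicit false

namespace Pool.Agent.Helper66.CW

open Finset Filter Pool.Agent.Helper66.MB Pool.Agent.Helper92.GB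

/-- The statement of block B3 (`chebyshev`). -/
def ChebH : Prop :=
  ∀ {k : ℕ}, 2 ≤ k → ∀ h : Fin k → ℕ, Function.Injective h → ∀ ε : ℝ, 0 < ε →
    ∃ C : ℝ, 0 ≤ C ∧ ∀ N J : ℕ, 2 ≤ N → (∀ i, N + h i < J) →
      fr J (fun ω => ¬ |cor (GL.cm (sgn ω)) h N| ≤ ε * N) ≤ C / Real.log N ^ 2

/-- A sequence of local events whose failure fractions are summable. -/
def Good99 (E : ℕ → (ℕ → ℤˣ) → Prop) : Prop :=
  ∃ (L : ℕ → ℕ) (b : ℕ → ℝ) (a : ℕ), Summable b ∧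
    (∀ (j : ℕ) (ω ω' : ℕ → ℤˣ), (∀ i < L j, ω i = ω' i) → E j ω → E j ω') ∧
    ∀ j : ℕ, a ≤ j → ∀ J : ℕ, L j ≤ J → fr J (fun ω => ¬ E j ω) ≤ b j

private lemma fr_nonneg99 (J : ℕ) (P : (ℕ → ℤˣ) → Prop) : 0 ≤ fr J P := by
  unfold fr
  positivity

/-- Start of the family with a small tail. -/
private lemma start99 {E : ℕ → (ℕ → ℤˣ) → Prop} (h : Good99 E) (δ : ℝ) (hδ : 0 < δ) :
    ∃ (j₀ : ℕ) (L : ℕ → ℕ) (b : ℕ → ℝ),
      (∀ (j : ℕ) (ω ω' : ℕ → ℤˣ), (∀ i < L j, ω i = ω' i) → E j ω → E j ω') ∧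
      (∀ j : ℕ, j₀ ≤ j → ∀ J : ℕ, L j ≤ J → fr J (fun ω => ¬ E j ω) ≤ b j) ∧
      (∀ j : ℕ, j₀ ≤ j → 0 ≤ b j) ∧ ∀ K : ℕ, ∑ j ∈ range K, b (j + j₀) ≤ δ := by
  obtain ⟨L, b, a, hs, hloc, hb⟩ := h
  obtain ⟨s, hs1⟩ := summable_iff_vanishing_norm.1 hs δ hδ
  refine ⟨max a (s.sup id + 1), L, b, hloc, fun j hj => hb j ((le_max_left _ _).trans hj), fun j hj => ?_, fun K => ?_⟩
  · exact (fr_nonneg99 _ _).trans (hb j ((le_max_left _ _).trans hj) (L j) le_rfl)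
  · have h1 := hs1 ((range K).image (fun j => j + max a (s.sup id + 1))) ?_
    · rw [sum_image (fun x _ y _ hxy => by omega)] at h1
      exact (le_abs_self _).trans h1.le
    · rw [Finset.disjoint_left]
      intro x hx hxs
      obtain ⟨j, _, rfl⟩ := mem_image.1 hx
      have h2 : j + max a (s.sup id + 1) ≤ s.sup id := le_sup (f := id) hxs
      have h3 := le_max_right a (s.sup id + 1)
      omega

private lemma geo99 (K : ℕ) : ∑ t ∈ range K, (1 / 2 : ℝ) ^ (t + 2) ≤ 1 / 2 - (1 / 2) ^ (K + 1) := by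
  induction K with
  | zero => norm_num
  | succ K ih =>
    rw [sum_range_succ]
    have h1 : (1 / 2 : ℝ) ^ (K + 1) = (1 / 2) ^ (K + 2) + (1 / 2) ^ (K + 2) := by ring
    have h2 : (1 / 2 : ℝ) ^ (K + 1 + 1) = (1 / 2) ^ (K + 2) := by ring
    linarith

private lemma families_nat99 (E : ℕ → ℕ → (ℕ → ℤˣ) → Prop) (h : ∀ t, Good99 (E t)) :
    ∃ ω : ℕ → ℤˣ, ∀ t, ∃ j₀ : ℕ, ∀ j : ℕ, j₀ ≤ j → E t j ω := by
  classical
  choose j₀ L b hloc hb hb0 hsum using fun t => start99 (h t) ((1 / 2 : ℝ) ^ (t + 2)) (by positivity)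
  have hfin : ∀ K : ℕ, ∃ ω : ℕ → ℤˣ, ∀ n < K, E n.unpair.1 (n.unpair.2 + j₀ n.unpair.1) ω := by
    intro K
    set J : ℕ := (range K).sup (fun n => L n.unpair.1 (n.unpair.2 + j₀ n.unpair.1)) with hJ
    have h1 : ∑ n ∈ range K, fr J (fun ω => ¬ E n.unpair.1 (n.unpair.2 + j₀ n.unpair.1) ω) < 1 := by
      have h2 : ∑ n ∈ range K, fr J (fun ω => ¬ E n.unpair.1 (n.unpair.2 + j₀ n.unpair.1) ω) ≤
          ∑ n ∈ range K, b n.unpair.1 (n.unpair.2 + j₀ n.unpair.1) := by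
        refine sum_le_sum fun n hn => hb _ _ (Nat.le_add_left _ _) J ?_
        exact le_sup (f := fun n : ℕ => L n.unpair.1 (n.unpair.2 + j₀ n.unpair.1)) hn
      have h3 : ∑ n ∈ range K, b n.unpair.1 (n.unpair.2 + j₀ n.unpair.1) =
          ∑ x ∈ (range K).image Nat.unpair, b x.1 (x.2 + j₀ x.1) := by
        rw [sum_image]
        intro x _ y _ hxy
        have h4 := congrArg (fun z : ℕ × ℕ => Nat.pair z.1 z.2) hxy
        simpa using h4
      have h4 : ∑ x ∈ (range K).image Nat.unpair, b x.1 (x.2 + j₀ x.1) ≤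
          ∑ x ∈ range K ×ˢ range K, b x.1 (x.2 + j₀ x.1) := by
        refine sum_le_sum_of_subset_of_nonneg ?_ (fun x _ _ => hb0 _ _ (Nat.le_add_left _ _))
        intro x hx
        obtain ⟨n, hn, rfl⟩ := mem_image.1 hx
        rw [mem_range] at hn
        rw [mem_product, mem_range, mem_range]
        exact ⟨lt_of_le_of_lt (Nat.unpair_left_le n) hn, lt_of_le_of_lt (Nat.unpair_right_le n) hn⟩
      rw [sum_product] at h4
      have h5 : ∑ t ∈ range K, ∑ j ∈ range K, b t (j + j₀ t) ≤ ∑ t ∈ range K, (1 / 2 : ℝ) ^ (t + 2) :=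
        sum_le_sum fun t _ => hsum t K
      have h6 := geo99 K
      have h7 : (0 : ℝ) < (1 / 2) ^ (K + 1) := by positivity
      linarith
    obtain ⟨ω, hω⟩ := union_bound J (range K) _ h1
    exact ⟨exd ω, fun n hn => not_not.1 (hω n (mem_range.2 hn))⟩
  obtain ⟨ω, hω⟩ := compact (fun n ω => E n.unpair.1 (n.unpair.2 + j₀ n.unpair.1) ω)
    (fun n => L n.unpair.1 (n.unpair.2 + j₀ n.unpair.1))
    (fun n ω ω' h1 h2 => hloc _ _ ω ω' h1 h2) hfin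
  refine ⟨ω, fun t => ⟨j₀ t, fun j hj => ?_⟩⟩
  have h1 := hω (Nat.pair t (j - j₀ t))
  simp only [Nat.unpair_pair] at h1
  rwa [Nat.sub_add_cancel hj] at h1

/-- Borel-Cantelli for countably many families of local events. -/
theorem families99 {ι : Type} [Countable ι] [Nonempty ι] (E : ι → ℕ → (ℕ → ℤˣ) → Prop)
    (h : ∀ i, Good99 (E i)) : ∃ ω : ℕ → ℤˣ, ∀ i, ∃ j₀ : ℕ, ∀ j : ℕ, j₀ ≤ j → E i j ω := by
  obtain ⟨d, hd⟩ := exists_surjective_nat ι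
  obtain ⟨ω, hω⟩ := families_nat99 (fun t => E (d t)) (fun t => h (d t))
  refine ⟨ω, fun i => ?_⟩
  obtain ⟨t, rfl⟩ := hd i
  exact hω t

/-! ### The base family -/

private lemma base_good99 (r n₀ : ℕ) : ∃ A : ℝ, Good99 (fun k ω => HH A k ω ∧ GL.GR r n₀ k ω) := by
  obtain ⟨A, a, hA, hHH⟩ := HH_fr
  obtain ⟨C, b, hC, hb, hGG⟩ := GL.GR_fr r n₀
  refine ⟨A, fun k => 2 ^ (k + 1), fun k => (1 / 2 : ℝ) ^ k + C * (1 / (k : ℝ) ^ 2), max a b, ?_, ?_, ?_⟩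
  · refine (summable_geometric_of_lt_one (by norm_num) (by norm_num)).add ?_
    exact (Real.summable_one_div_nat_pow.2 (by norm_num)).mul_left C
  · intro k ω ω' h1 h2
    exact ⟨HH_local A k ω ω' h1 h2.1, GL.GR_local r n₀ k ω ω' h1 h2.2⟩
  · intro k hk J hJ
    have h1 : fr J (fun ω => ¬ (HH A k ω ∧ GL.GR r n₀ k ω)) ≤ fr J (fun ω => ¬ HH A k ω ∨ ¬ GL.GR r n₀ k ω) := by
      refine le_of_eq ?_
      congr 1
      funext ω
      rw [not_and_or]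
    refine h1.trans ((fr_or _ _ _).trans (add_le_add ?_ ?_))
    · refine (hHH k ((le_max_left _ _).trans hk) J hJ).trans (le_of_eq ?_)
      rw [one_div_pow]
    · refine (hGG k ((le_max_right _ _).trans hk) J hJ).trans (le_of_eq ?_)
      rw [mul_one_div]

/-! ### The correlation families -/

/-- The scales. -/
noncomputable def Nq99 (m j : ℕ) : ℕ := ⌊(1 + 1 / ((m : ℝ) + 1)) ^ j⌋₊

private lemma sgn_congr99 {ω ω' : ℕ → ℤˣ} {L n : ℕ} (h : ∀ i < L, ω i = ω' i) (hn : n < L) : sgn ω n = sgn ω' n := by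
  have h1 : Nat.count Nat.Prime n / 2 < L := by
    have := Nat.count_le (p := Nat.Prime) (n := n)
    omega
  unfold sgn
  rw [h _ h1]

private lemma cm_local99 {ω ω' : ℕ → ℤˣ} {L n : ℕ} (h : ∀ i < L, ω i = ω' i) (hn : n < L) :
    GL.cm (sgn ω) n = GL.cm (sgn ω') n := by
  refine GL.cm_congr fun p hp => sgn_congr99 h ?_
  have h1 := Nat.le_of_mem_primeFactors hp
  omega

private lemma cor_local99 {ω ω' : ℕ → ℤˣ} {k : ℕ} (h : Fin k → ℕ) {N L : ℕ} (hω : ∀ i < L, ω i = ω' i)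
    (hL : ∀ i, N + h i < L) : cor (GL.cm (sgn ω)) h N = cor (GL.cm (sgn ω')) h N := by
  unfold cor
  refine sum_congr rfl fun n hn => prod_congr rfl fun i _ => ?_
  rw [mem_Icc] at hn
  have h1 := hL i
  rw [cm_local99 hω (show n + h i < L by omega)]

private lemma log_Nq99 (m : ℕ) : ∃ a : ℕ, 1 ≤ a ∧ ∀ j : ℕ, a ≤ j → 2 ≤ Nq99 m j ∧
    (j : ℝ) / 2 * Real.log (1 + 1 / ((m : ℝ) + 1)) ≤ Real.log (Nq99 m j) := by
  set q : ℝ := 1 + 1 / ((m : ℝ) + 1) with hq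
  have hm : (0 : ℝ) < 1 / ((m : ℝ) + 1) := by positivity
  have hq1 : 1 < q := by linarith
  have hlq : 0 < Real.log q := Real.log_pos hq1
  obtain ⟨a, ha⟩ := exists_nat_ge (2 * Real.log 3 / Real.log q)
  refine ⟨max a 1, le_max_right _ _, fun j hj => ?_⟩
  have hja : (a : ℝ) ≤ j := by exact_mod_cast (le_max_left _ _).trans hj
  have h1 : 2 * Real.log 3 ≤ j * Real.log q := by
    rw [div_le_iff₀ hlq] at ha
    nlinarith
  -- `q ^ j ≥ 9`
  have h2 : Real.log (q ^ j) = j * Real.log q := Real.log_pow _ _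
  have hqj : 0 < q ^ j := by positivity
  have h3 : (9 : ℝ) ≤ q ^ j := by
    have h4 : Real.log 9 ≤ Real.log (q ^ j) := by
      rw [h2, show (9 : ℝ) = 3 ^ 2 by norm_num, Real.log_pow]
      push_cast
      exact h1
    exact (Real.log_le_log_iff (by norm_num) hqj).1 h4
  have h5 : q ^ j - 1 < (Nq99 m j : ℝ) := Nat.sub_one_lt_floor _
  have h6 : q ^ j / 3 ≤ (Nq99 m j : ℝ) := by linarith
  constructor
  · have h7 : (2 : ℝ) ≤ (Nq99 m j : ℝ) := by linarith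
    exact_mod_cast h7
  · have h8 : Real.log (q ^ j / 3) ≤ Real.log (Nq99 m j) := Real.log_le_log (by positivity) h6
    rw [Real.log_div hqj.ne' (by norm_num), h2] at h8
    linarith

private lemma cor_good99 (hC : ChebH) (x : Σ k : ℕ, (Fin k → ℕ) × ℕ) :
    Good99 (fun j ω => 2 ≤ x.1 → Function.Injective x.2.1 →
      |cor (GL.cm (sgn ω)) x.2.1 (Nq99 x.2.2 j)| ≤ 1 / ((x.2.2 : ℝ) + 1) * (Nq99 x.2.2 j : ℝ)) := by
  obtain ⟨k, h, m⟩ := x
  dsimp only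
  have hloc : ∀ (j : ℕ) (ω ω' : ℕ → ℤˣ), (∀ i < Nq99 m j + (∑ i, h i) + 1, ω i = ω' i) →
      (2 ≤ k → Function.Injective h →
        |cor (GL.cm (sgn ω)) h (Nq99 m j)| ≤ 1 / ((m : ℝ) + 1) * (Nq99 m j : ℝ)) →
      (2 ≤ k → Function.Injective h →
        |cor (GL.cm (sgn ω')) h (Nq99 m j)| ≤ 1 / ((m : ℝ) + 1) * (Nq99 m j : ℝ)) := by
    intro j ω ω' h1 h2 h3 h4
    rw [← cor_local99 h h1]
    · exact h2 h3 h4
    · intro i
      have h5 : h i ≤ ∑ i, h i := single_le_sum (fun _ _ => Nat.zero_le _) (mem_univ i)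
      omega
  by_cases hk : 2 ≤ k ∧ Function.Injective h
  · obtain ⟨hk2, hinj⟩ := hk
    obtain ⟨C, hC0, hCh⟩ := hC hk2 h hinj (1 / ((m : ℝ) + 1)) (by positivity)
    obtain ⟨a, ha1, ha⟩ := log_Nq99 m
    set l : ℝ := Real.log (1 + 1 / ((m : ℝ) + 1)) with hl
    have hl0 : 0 < l := Real.log_pos (by
      have : (0 : ℝ) < 1 / ((m : ℝ) + 1) := by positivity
      linarith)
    refine ⟨fun j => Nq99 m j + (∑ i, h i) + 1, fun j => (C * 4 / l ^ 2) * (1 / (j : ℝ) ^ 2), a, ?_, hloc, ?_⟩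
    · exact (Real.summable_one_div_nat_pow.2 (by norm_num)).mul_left _
    · intro j hj J hJ
      obtain ⟨h1, h2⟩ := ha j hj
      have hj0 : (0 : ℝ) < j := by
        have : 0 < j := by omega
        exact_mod_cast this
      have h3 : fr J (fun ω => ¬ (2 ≤ k → Function.Injective h →
          |cor (GL.cm (sgn ω)) h (Nq99 m j)| ≤ 1 / ((m : ℝ) + 1) * (Nq99 m j : ℝ))) =
          fr J (fun ω => ¬ |cor (GL.cm (sgn ω)) h (Nq99 m j)| ≤ 1 / ((m : ℝ) + 1) * (Nq99 m j : ℝ)) := by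
        congr 1
        funext ω
        simp only [hk2, hinj, forall_const]
      rw [h3]
      refine (hCh (Nq99 m j) J h1 ?_).trans ?_
      · intro i
        have hJ' : Nq99 m j + (∑ i, h i) + 1 ≤ J := hJ
        have h5 : h i ≤ ∑ i, h i := single_le_sum (fun _ _ => Nat.zero_le _) (mem_univ i)
        omega
      · have h4 : 0 < (j : ℝ) / 2 * l := by positivity
        have h5 : ((j : ℝ) / 2 * l) ^ 2 ≤ Real.log (Nq99 m j) ^ 2 := pow_le_pow_left₀ h4.le h2 2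
        refine (div_le_div_of_nonneg_left hC0 (by positivity) h5).trans (le_of_eq ?_)
        field_simp
        try ring
  · refine ⟨fun j => Nq99 m j + (∑ i, h i) + 1, fun _ => 0, 0, summable_zero, hloc, ?_⟩
    intro j _ J _
    have h3 : (fun ω : ℕ → ℤˣ => ¬ (2 ≤ k → Function.Injective h →
        |cor (GL.cm (sgn ω)) h (Nq99 m j)| ≤ 1 / ((m : ℝ) + 1) * (Nq99 m j : ℝ))) = fun _ => False := by
      funext ω
      rw [eq_iff_iff, iff_false, not_not]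
      intro h1 h2
      exact absurd ⟨h1, h2⟩ hk
    rw [h3]
    unfold fr
    simp

/-! ### From the scales to all integers -/

private lemma cor_gap99 (g : ℕ → ℤ) (hg : ∀ n, g n = 1 ∨ g n = -1) {k : ℕ} (h : Fin k → ℕ) {N' N : ℕ}
    (hN : N' ≤ N) : |cor g h N| ≤ |cor g h N'| + ((N : ℝ) - N') := by
  have h1 : Icc 1 N = Icc 1 N' ∪ Ioc N' N := by
    ext n; simp only [mem_union, mem_Icc, mem_Ioc]; omega
  have h2 : Disjoint (Icc 1 N') (Ioc N' N) := by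
    rw [Finset.disjoint_left]; intro n; simp only [mem_Icc, mem_Ioc]; omega
  have h3 : cor g h N = cor g h N' + ∑ n ∈ Ioc N' N, ∏ i, (g (n + h i) : ℝ) := by
    unfold cor
    rw [h1, sum_union h2]
  have h4 : |∑ n ∈ Ioc N' N, ∏ i, (g (n + h i) : ℝ)| ≤ ((N : ℝ) - N') := by
    refine (abs_sum_le_sum_abs _ _).trans ?_
    have h5 : ∑ n ∈ Ioc N' N, |∏ i, (g (n + h i) : ℝ)| ≤ ∑ n ∈ Ioc N' N, (1 : ℝ) := by
      refine sum_le_sum fun n _ => ?_
      rw [abs_prod]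
      refine le_of_eq (prod_eq_one fun i _ => ?_)
      rcases hg (n + h i) with h6 | h6 <;> rw [h6] <;> simp
    refine h5.trans (le_of_eq ?_)
    rw [sum_const, Nat.card_Ioc, nsmul_eq_mul, mul_one, Nat.cast_sub hN]
  rw [h3]
  exact (abs_add_le _ _).trans (add_le_add_right h4 _)

private lemma ch_of99 (g : ℕ → ℤ) (hg : ∀ n, g n = 1 ∨ g n = -1)
    (H : ∀ k : ℕ, 2 ≤ k → ∀ h : Fin k → ℕ, Function.Injective h → ∀ m : ℕ,
      ∃ j₀ : ℕ, ∀ j : ℕ, j₀ ≤ j → |cor g h (Nq99 m j)| ≤ 1 / ((m : ℝ) + 1) * (Nq99 m j : ℝ)) : Ch2 g := by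
  intro k hk h hinj ε hε
  obtain ⟨m, hm⟩ := exists_nat_ge (3 / ε)
  obtain ⟨j₀, hj₀⟩ := H k hk h hinj m
  set q : ℝ := 1 + 1 / ((m : ℝ) + 1) with hq
  have hm0 : (0 : ℝ) < 1 / ((m : ℝ) + 1) := by positivity
  have hq1 : 1 < q := by linarith
  obtain ⟨N₁, hN₁⟩ := exists_nat_ge (q ^ j₀)
  refine ⟨max N₁ (m + 1), fun N hN => ?_⟩
  have hNa : (N₁ : ℝ) ≤ N := by exact_mod_cast (le_max_left _ _).trans hN
  have hNb : (m : ℝ) + 1 ≤ N := by exact_mod_cast (le_max_right _ _).trans hN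
  have hm1 : (0 : ℝ) < (m : ℝ) + 1 := by positivity
  have hN1 : (1 : ℝ) ≤ N := by
    have : (0 : ℝ) ≤ m := Nat.cast_nonneg m
    linarith
  obtain ⟨j, hj1, hj2⟩ := exists_nat_pow_near hN1 hq1
  have hjj : j₀ ≤ j := by
    have h1 : q ^ j₀ < q ^ (j + 1) := (hN₁.trans hNa).trans_lt hj2
    have h2 := (pow_lt_pow_iff_right₀ hq1).1 h1
    omega
  have h1 := hj₀ j hjj
  have h2 : (Nq99 m j : ℝ) ≤ q ^ j := Nat.floor_le (by positivity)
  have h3 : q ^ j < (Nq99 m j : ℝ) + 1 := Nat.lt_floor_add_one _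
  have h4 : Nq99 m j ≤ N := by
    have : (Nq99 m j : ℝ) ≤ N := h2.trans hj1
    exact_mod_cast this
  have h5 := cor_gap99 g hg h h4
  have h6 : q ^ (j + 1) = q ^ j + q ^ j * (1 / ((m : ℝ) + 1)) := by
    rw [pow_succ, hq]; ring
  have h7 : q ^ j * (1 / ((m : ℝ) + 1)) ≤ N * (1 / ((m : ℝ) + 1)) := mul_le_mul_of_nonneg_right hj1 hm0.le
  have h8 : 1 / ((m : ℝ) + 1) * (Nq99 m j : ℝ) ≤ N * (1 / ((m : ℝ) + 1)) := by
    rw [mul_comm]
    exact mul_le_mul_of_nonneg_right (h2.trans hj1) hm0.le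
  have h9 : (1 : ℝ) ≤ N * (1 / ((m : ℝ) + 1)) := by
    rw [mul_one_div, le_div_iff₀ hm1, one_mul]
    exact hNb
  have h10 : 3 * (N * (1 / ((m : ℝ) + 1))) ≤ ε * N := by
    have h11 : 3 * (1 / ((m : ℝ) + 1)) ≤ ε := by
      rw [mul_one_div, div_le_iff₀ hm1]
      rw [div_le_iff₀ hε] at hm
      nlinarith
    calc 3 * (N * (1 / ((m : ℝ) + 1))) = 3 * (1 / ((m : ℝ) + 1)) * N := by ring
      _ ≤ ε * N := mul_le_mul_of_nonneg_right h11 (by linarith)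
  linarith

/-- Block B4, from block B3. -/
theorem exists_signs_ch_of (hC : ChebH) (r n₀ : ℕ) : ∃ (ω : ℕ → ℤˣ) (A : ℝ) (k₁ : ℕ), 1 ≤ k₁ ∧
    (∀ k : ℕ, k₁ ≤ k → HH A k ω ∧ GL.GR r n₀ k ω) ∧ Ch2 (GL.cm (sgn ω)) := by
  obtain ⟨A, hA⟩ := base_good99 r n₀
  obtain ⟨ω, hω⟩ := families99
    (fun o : Option (Σ k : ℕ, (Fin k → ℕ) × ℕ) =>
      o.elim (fun k ω => HH A k ω ∧ GL.GR r n₀ k ω)
        (fun x j ω => 2 ≤ x.1 → Function.Injective x.2.1 →
          |cor (GL.cm (sgn ω)) x.2.1 (Nq99 x.2.2 j)| ≤ 1 / ((x.2.2 : ℝ) + 1) * (Nq99 x.2.2 j : ℝ))) (by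
      intro o
      cases o with
      | none => exact hA
      | some x => exact cor_good99 hC x)
  obtain ⟨j₁, hj₁⟩ := hω none
  refine ⟨ω, A, max j₁ 1, le_max_right _ _, fun k hk => hj₁ k ((le_max_left _ _).trans hk), ?_⟩
  refine ch_of99 _ (GL.cm_sign _ (sgn_mem ω)) fun k hk h hinj m => ?_
  obtain ⟨j₀, hj₀⟩ := hω (some ⟨k, h, m⟩)
  exact ⟨j₀, fun j hj => hj₀ j hj hk hinj⟩

private lemma kr_anti99 {r s : ℕ} (h : r ≤ s) (y : ℕ) : GL.kr s y ≤ GL.kr r y := by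
  unfold GL.kr
  have h1 : (1 : ℝ) ≤ 1 + Real.log y := by
    have := Real.log_natCast_nonneg y
    linarith
  have h2 : (1 + Real.log (y : ℝ)) ^ r ≤ (1 + Real.log (y : ℝ)) ^ s := pow_le_pow_right₀ h1 h
  have h3 : 0 < (1 + Real.log (y : ℝ)) ^ r := by positivity
  exact inv_anti₀ h3 h2

/-- Block B4, from block B3. -/
theorem base3_of (hCh : ChebH) : ∃ ω : ℕ → ℤˣ, PS (sgn ω) ∧ JC.ClG (Mf (sgn ω)) ∧ JC.ClG (GL.Lf (sgn ω)) ∧
    Ch2 (GL.cm (sgn ω)) := by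
  obtain ⟨C₁, r₁, hC₁, hpsi⟩ := GL.psi_bound 3
  obtain ⟨C₂, n₁, hC₂, hbr⟩ := GL.bracket 3
  obtain ⟨C₃, hC₃, hsum⟩ := GL.sumM
  obtain ⟨n₀, hn₀⟩ := exists_n₀
  set r := max r₁ 2 with hr
  set n := max n₁ n₀ with hn
  obtain ⟨ω, A, k₁, hk₁, h, hch⟩ := exists_signs_ch_of hCh r n
  obtain ⟨C, hC, hst⟩ := GL.star_bound_r r n k₁ hk₁ ω fun k hk => (h k hk).2
  have hst1 : ∀ s : ℕ, s ≤ r → ∀ x : ℕ, 1 ≤ x → |Sm x (star ω (Ico n x))| ≤ C * Real.sqrt x * GL.kr s x := by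
    intro s hs x hx
    refine (hst x hx).trans ?_
    exact mul_le_mul_of_nonneg_left (kr_anti99 hs x) (by positivity)
  refine ⟨ω, PS_of_HH A k₁ ω fun k hk => (h k hk).1, ?_, ?_, hch⟩
  · obtain ⟨C', hC'⟩ := full_bound n (fun i hi => hn₀ i ((le_max_right _ _).trans hi)) ω C (by linarith)
      (fun x hx => hst1 2 (le_max_right _ _) x hx)
    refine ⟨C', fun x hx => ?_⟩
    rw [Mf_full ω x x le_rfl]
    exact hC' x x hx le_rfl
  · refine GL.add_primes (sgn ω) (sgn_mem ω) n ⟨C₂ * (C₁ * C) * C₃, fun x hx => ?_⟩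
    rw [GL.euler ω n x x x le_rfl Nat.lt_two_pow_self]
    refine (GL.alpha x x _ _ (GL.Sm_zero_bra ω x _)).trans ?_
    have h1 : ∀ y : ℕ, 1 ≤ y → y ≤ x → |Sm y (star ω (Ico n x))| ≤ C * Real.sqrt y * GL.kr r₁ y := by
      intro y hy hyx
      rw [Sm_star_Ico ω n y x hyx]
      exact hst1 r₁ (le_max_left _ _) y hy
    have h2 := hpsi n x ω C hC h1
    have h3 := hbr n x x x ω (C₁ * C) (le_max_left _ _) Nat.lt_two_pow_self (by positivity) h2
    have h4 : ∀ m ∈ GL.Am x, |Sm (x / (m * m)) (GL.bra ω x (Ico n x))| ≤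
        C₂ * (C₁ * C) * (Real.sqrt ((x / (m * m) : ℕ) : ℝ) * GL.kr 3 (x / (m * m))) := by
      intro m hm
      have hm' : m ∈ Icc 1 x ∧ (m * m ≤ x ∧ ∀ i, ¬ pb i ∣ m) := by
        classical
        unfold GL.Am at hm
        rwa [mem_filter] at hm
      have hm1 : 1 ≤ m := (mem_Icc.1 hm'.1).1
      have hmm : 0 < m * m := Nat.mul_pos hm1 hm1
      refine (h3 (x / (m * m)) ?_ (Nat.div_le_self _ _)).trans (le_of_eq (by ring))
      rw [Nat.le_div_iff_mul_le hmm, one_mul]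
      exact hm'.2.1
    refine (sum_le_sum h4).trans ?_
    rw [← mul_sum]
    have h5 := mul_le_mul_of_nonneg_left (hsum x hx) (show 0 ≤ C₂ * (C₁ * C) by positivity)
    refine h5.trans (le_of_eq (by ring))

end Pool.Agent.Helper66.CW
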